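import Pool.Agent.Y661.HE.Stm

/-!
Project HE, (DEC): decay of the solutions from supersolutions at both edges.
-/

set_option autoImplicit false

open scoped BigOperators
open Finset Complex

namespace Pool.Agent.Y290.HE.DEC

open Pool.Agent.H12R2.And (V ee pot PP Q Dep Good hop mem_Q Q_mono Q_trans add_ee_mem sub_ee_mem
  self_mem_Q)
open Pool.Agent.Y661.HE

lemma pot_abs {d : ℕ} (ω : V d → Bool) (x : V d) : |pot ω x| = 1 := by
  unfold pot; split_ifs <;> simp

theorem main : S_DEC := by
  intro d hd ω a l δ M L0 φ hδ hδ1 hl hM hφ E hE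
  have hdR : (1 : ℝ) ≤ d := by exact_mod_cast hd
  have hd0 : (0 : ℝ) < d := by linarith
  have hl' := abs_le.1 hl
  intro ε' u S hu hS
  have hS0 : 0 ≤ S := (norm_nonneg _).trans (hS a (self_mem_Q a _))
  obtain ⟨s, hs, hsE⟩ : ∃ s : ℝ, (s = 1 ∨ s = -1) ∧ ∀ x,
      2 * d + s * pot ω x + l + δ ≤ |2 * d + pot ω x - E| := by
    rcases hE with hE | hE
    · refine ⟨1, Or.inl rfl, fun x => ?_⟩
      exact le_trans (by linarith) (le_abs_self _)
    · refine ⟨-1, Or.inr rfl, fun x => ?_⟩
      exact le_trans (by linarith) (neg_le_abs _)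
  obtain ⟨hb, hsup⟩ := hφ s hs
  have hsub : ∀ x ∈ Q a L0, (2 * d + s * pot ω x + l + δ) * ‖u x‖ ≤
      ∑ i : Fin d, (‖u (x + ee i)‖ + ‖u (x - ee i)‖) := by
    intro x hx
    have hu' := hu x hx
    have e : (((2 * d + pot ω x - E : ℝ) : ℂ) - ε' * I) * u x
        = ∑ i : Fin d, (u (x + ee i) + u (x - ee i)) := by
      have h1 : hop ω u x = (((2 * d + pot ω x : ℝ)) : ℂ) * u x
          - ∑ i : Fin d, (u (x + ee i) + u (x - ee i)) := by
        unfold hop pot
        simp only [Finset.sum_add_distrib, Finset.sum_sub_distrib, Finset.sum_const,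
          Finset.card_univ, Fintype.card_fin, nsmul_eq_mul]
        by_cases h : ω x
        · simp [h]; ring
        · simp [h]; ring
      rw [h1] at hu'
      push_cast at hu' ⊢
      linear_combination hu'
    have h2 : |2 * d + pot ω x - E| ≤ ‖((2 * d + pot ω x - E : ℝ) : ℂ) - ε' * I‖ := by
      have := Complex.abs_re_le_norm (((2 * d + pot ω x - E : ℝ) : ℂ) - ε' * I)
      simpa using this
    calc (2 * d + s * pot ω x + l + δ) * ‖u x‖
        ≤ ‖((2 * d + pot ω x - E : ℝ) : ℂ) - ε' * I‖ * ‖u x‖ :=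
          mul_le_mul_of_nonneg_right ((hsE x).trans h2) (norm_nonneg _)
      _ = ‖∑ i : Fin d, (u (x + ee i) + u (x - ee i))‖ := by rw [← norm_mul, e]
      _ ≤ ∑ i : Fin d, ‖u (x + ee i) + u (x - ee i)‖ := norm_sum_le _ _
      _ ≤ _ := Finset.sum_le_sum fun i _ => norm_add_le _ _
  -- the induction
  set θ : ℝ := 1 - δ / (8 * d) with hθ
  have hθ0 : 0 ≤ θ := by
    have : δ / (8 * (d : ℝ)) ≤ 1 := by
      rw [div_le_one (by positivity)]
      linarith
    linarith
  have key : ∀ n : ℕ, n ≤ M + 1 → ∀ x ∈ Q a (M + 1 - n),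
      ‖u x‖ ≤ θ ^ n * (2 * S) * φ s x := by
    intro n
    induction n with
    | zero =>
      intro _ x hx
      have h1 : ‖u x‖ ≤ S := hS x (Q_mono (by omega) hx)
      have h2 := (hb x).1
      rw [pow_zero, one_mul]
      nlinarith
    | succ n ih =>
      intro hn x hx
      have ih' := ih (by omega)
      have hxm : x ∈ Q a M := Q_mono (by omega) hx
      have h1 := hsub x (Q_mono (by omega) hxm)
      have h2 := hsup x hxm
      have hnb : ∀ y ∈ Q x 1, ‖u y‖ ≤ θ ^ n * (2 * S) * φ s y := by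
        intro y hy
        apply ih'
        have := Q_trans hx hy
        refine Q_mono ?_ this
        omega
      have h3 : ∑ i : Fin d, (‖u (x + ee i)‖ + ‖u (x - ee i)‖) ≤
          θ ^ n * (2 * S) * ∑ i : Fin d, (φ s (x + ee i) + φ s (x - ee i)) := by
        rw [Finset.mul_sum]
        refine Finset.sum_le_sum fun i _ => ?_
        have a1 := hnb _ (add_ee_mem x i)
        have a2 := hnb _ (sub_ee_mem x i)
        rw [mul_add]
        linarith
      have hθS : 0 ≤ θ ^ n * (2 * S) := by positivity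
      have hsp : |s * pot ω x| = 1 := by
        rw [abs_mul, pot_abs, mul_one]
        rcases hs with rfl | rfl <;> norm_num
      have hsp' := abs_le.1 hsp.le
      set A : ℝ := 2 * d + s * pot ω x + l + δ with hA
      have hA0 : 0 < A := by linarith
      have hA4 : A ≤ 4 * d := by linarith
      have hAθ : 2 * d + s * pot ω x + l ≤ θ * A := by
        have e2 : δ / (8 * (d : ℝ)) * A ≤ δ / 2 := by
          calc δ / (8 * (d : ℝ)) * A ≤ δ / (8 * (d : ℝ)) * (4 * d) :=
                mul_le_mul_of_nonneg_left hA4 (by positivity)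
            _ = δ / 2 := by field_simp; ring
        rw [hθ]
        linarith
      have hφ0 : 0 ≤ φ s x := by
        have := (hb x).1
        linarith
      have h4 : A * ‖u x‖ ≤ A * (θ ^ (n + 1) * (2 * S) * φ s x) := by
        calc A * ‖u x‖ ≤ _ := h1
          _ ≤ _ := h3
          _ ≤ θ ^ n * (2 * S) * ((2 * d + s * pot ω x + l) * φ s x) :=
              mul_le_mul_of_nonneg_left h2 hθS
          _ ≤ θ ^ n * (2 * S) * ((θ * A) * φ s x) :=
              mul_le_mul_of_nonneg_left (mul_le_mul_of_nonneg_right hAθ hφ0) hθS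
          _ = _ := by ring
      exact le_of_mul_le_mul_left h4 hA0
  have hfin := key (M + 1) le_rfl a (self_mem_Q a _)
  have hup := (hb a).2
  calc ‖u a‖ ≤ _ := hfin
    _ ≤ θ ^ (M + 1) * (2 * S) * (3 / 2) :=
        mul_le_mul_of_nonneg_left hup (by positivity)
    _ = _ := by ring

end Pool.Agent.Y290.HE.DEC
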